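import Pool.Agent.Helper94.FU.J

/-!
# Change of variable `s = g cos φ` and the rotation (Archimedes) identity
-/

namespace Pool.Agent.Helper34.FU

open MeasureTheory Real Set
open scoped ENNReal
open Pool.Agent.Helper94.FU (jj jj_nonneg jj_continuous)

theorem image_cos {g : ℝ} (hg : 0 < g) :
    (fun φ : ℝ => g * Real.cos φ) '' Ioo 0 π = Ioo (-g) g := by
  have h : (fun φ : ℝ => g * Real.cos φ) '' Ioo 0 π =
      (fun x => g * x) '' (Real.cos '' Ioo 0 π) := by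
    rw [image_image]
  have h2 : Real.cos '' Ioo 0 π = Ioo (-1) 1 := by
    ext x
    constructor
    · rintro ⟨φ, ⟨h1, h2⟩, rfl⟩
      constructor
      · rw [← Real.cos_pi]
        exact Real.cos_lt_cos_of_nonneg_of_le_pi h1.le le_rfl h2
      · rw [← Real.cos_zero]
        exact Real.cos_lt_cos_of_nonneg_of_le_pi le_rfl h2.le h1
    · rintro ⟨h1, h2⟩
      refine ⟨Real.arccos x, ⟨Real.arccos_pos.2 h2, ?_⟩, Real.cos_arccos h1.le h2.le⟩
      refine lt_of_le_of_ne (Real.arccos_le_pi x) fun h => ?_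
      rw [Real.arccos_eq_pi] at h
      linarith
  rw [h, h2, image_mul_left_Ioo hg]
  simp

theorem inj_cos {g : ℝ} (hg : 0 < g) : InjOn (fun φ : ℝ => g * Real.cos φ) (Ioo 0 π) := by
  intro x hx y hy hxy
  have := mul_left_cancel₀ hg.ne' hxy
  exact Real.injOn_cos ⟨hx.1.le, hx.2.le⟩ ⟨hy.1.le, hy.2.le⟩ this

theorem sqrt_cos {g φ : ℝ} (hg : 0 < g) (h : φ ∈ Ioo 0 π) :
    √(g ^ 2 - (g * Real.cos φ) ^ 2) = g * Real.sin φ := by
  have h1 : g ^ 2 - (g * Real.cos φ) ^ 2 = (g * Real.sin φ) ^ 2 := by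
    have := Real.sin_sq_add_cos_sq φ
    linear_combination g ^ 2 * (-this)
  rw [h1, Real.sqrt_sq]
  exact mul_nonneg hg.le (Real.sin_pos_of_pos_of_lt_pi h.1 h.2).le

theorem deriv_cos (g φ : ℝ) :
    HasDerivAt (fun φ : ℝ => g * Real.cos φ) (-(g * Real.sin φ)) φ := by
  have := (Real.hasDerivAt_cos φ).const_mul g
  rwa [mul_neg] at this

/-- change of variable `s = g cos φ`, nonnegative version -/
theorem lcv {g : ℝ} (hg : 0 < g) (f : ℝ → ℝ≥0∞) :
    ∫⁻ φ in Ioo 0 π, f (g * Real.cos φ) =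
      ∫⁻ s in Ioo (-g) g, f s * ENNReal.ofReal ((√(g ^ 2 - s ^ 2))⁻¹) := by
  have h := lintegral_image_eq_lintegral_abs_deriv_mul (s := Ioo 0 π) measurableSet_Ioo
    (fun φ _ => (deriv_cos g φ).hasDerivWithinAt) (inj_cos hg)
    (fun s => f s * ENNReal.ofReal ((√(g ^ 2 - s ^ 2))⁻¹))
  rw [image_cos hg] at h
  rw [h]
  refine setLIntegral_congr_fun measurableSet_Ioo fun φ hφ => ?_
  have hs : 0 < g * Real.sin φ := mul_pos hg (Real.sin_pos_of_pos_of_lt_pi hφ.1 hφ.2)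
  show f (g * Real.cos φ) = ENNReal.ofReal |-(g * Real.sin φ)| *
    (f (g * Real.cos φ) * ENNReal.ofReal ((√(g ^ 2 - (g * Real.cos φ) ^ 2))⁻¹))
  rw [sqrt_cos hg hφ, abs_neg, abs_of_pos hs, mul_left_comm, ← ENNReal.ofReal_mul hs.le,
    mul_inv_cancel₀ hs.ne', ENNReal.ofReal_one, mul_one]

/-- change of variable `s = g cos φ`, Bochner version -/
theorem bcv {g : ℝ} (hg : 0 < g) (f : ℝ → ℝ) :
    ∫ φ in Ioo 0 π, f (g * Real.cos φ) =
      ∫ s in Ioo (-g) g, f s * (√(g ^ 2 - s ^ 2))⁻¹ := by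
  have h := integral_image_eq_integral_abs_deriv_smul (s := Ioo 0 π) measurableSet_Ioo
    (fun φ _ => (deriv_cos g φ).hasDerivWithinAt) (inj_cos hg)
    (fun s => f s * (√(g ^ 2 - s ^ 2))⁻¹)
  rw [image_cos hg] at h
  rw [h]
  refine setIntegral_congr_fun measurableSet_Ioo fun φ hφ => ?_
  have hs : 0 < g * Real.sin φ := mul_pos hg (Real.sin_pos_of_pos_of_lt_pi hφ.1 hφ.2)
  show f (g * Real.cos φ) = |-(g * Real.sin φ)| •
    (f (g * Real.cos φ) * (√(g ^ 2 - (g * Real.cos φ) ^ 2))⁻¹)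
  rw [sqrt_cos hg hφ, abs_neg, abs_of_pos hs, smul_eq_mul, mul_left_comm,
    mul_inv_cancel₀ hs.ne', mul_one]

/-- `jj` as a nonnegative integral -/
theorem ofReal_jj (g c : ℝ) : ENNReal.ofReal (jj g c) =
    ENNReal.ofReal (1 / π) * ∫⁻ φ in Ioo 0 π, ENNReal.ofReal (max (g * Real.cos φ - c) 0) := by
  unfold jj
  rw [← one_div]
  rw [ENNReal.ofReal_mul (by positivity), intervalIntegral.integral_of_le pi_pos.le,
    ofReal_integral_eq_lintegral_ofReal, restrict_Ioo_eq_restrict_Ioc]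
  · exact (intervalIntegrable_iff_integrableOn_Ioc_of_le pi_pos.le).1
      ((Pool.Agent.Helper94.FU.cont_max g c).intervalIntegrable 0 π)
  · exact Filter.Eventually.of_forall fun φ => le_max_right _ _

theorem sqrt_inv_zero {x : ℝ} (h : x ≤ 0) : (√x)⁻¹ = 0 := by
  rw [Real.sqrt_eq_zero_of_nonpos h, inv_zero]

/-- the disc formula: `(η, s)` with `η` uniform and `s = √(r² - η²) cos φ` -/
theorem disc (r : ℝ) {H : ℝ × ℝ → ℝ≥0∞} (hH : Measurable H) :
    ∫⁻ p : ℝ × ℝ, H p * ENNReal.ofReal ((√(r ^ 2 - p.1 ^ 2 - p.2 ^ 2))⁻¹) =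
      ∫⁻ η in Ioo (-|r|) |r|, ∫⁻ φ in Ioo 0 π, H (η, √(r ^ 2 - η ^ 2) * Real.cos φ) := by
  have hm : Measurable fun p : ℝ × ℝ =>
      H p * ENNReal.ofReal ((√(r ^ 2 - p.1 ^ 2 - p.2 ^ 2))⁻¹) := by fun_prop
  rw [Measure.volume_eq_prod, lintegral_prod _ hm.aemeasurable]
  rw [← lintegral_indicator measurableSet_Ioo]
  refine lintegral_congr fun η => ?_
  by_cases hη : η ∈ Ioo (-|r|) |r|
  · rw [indicator_of_mem hη]
    have h1 : 0 < r ^ 2 - η ^ 2 := by
      have := sq_lt_sq' hη.1 hη.2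
      rw [sq_abs] at this
      linarith
    have hg : 0 < √(r ^ 2 - η ^ 2) := Real.sqrt_pos.2 h1
    rw [lcv hg (fun s => H (η, s)), ← lintegral_indicator measurableSet_Ioo]
    refine lintegral_congr fun s => ?_
    rw [Real.sq_sqrt h1.le]
    by_cases hs : s ∈ Ioo (-√(r ^ 2 - η ^ 2)) (√(r ^ 2 - η ^ 2))
    · rw [indicator_of_mem hs]
    · rw [indicator_of_notMem hs]
      have : r ^ 2 - η ^ 2 - s ^ 2 ≤ 0 := by
        by_contra hcon
        push Not at hcon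
        apply hs
        rw [mem_Ioo, ← abs_lt]
        have : s ^ 2 < r ^ 2 - η ^ 2 := by linarith
        rw [← Real.sqrt_sq_eq_abs]
        exact Real.sqrt_lt_sqrt (sq_nonneg s) this
      show H (η, s) * ENNReal.ofReal ((√(r ^ 2 - η ^ 2 - s ^ 2))⁻¹) = 0
      rw [sqrt_inv_zero this]
      simp
  · rw [indicator_of_notMem hη]
    have h1 : r ^ 2 - η ^ 2 ≤ 0 := by
      by_contra hcon
      push Not at hcon
      apply hη
      rw [mem_Ioo, ← abs_lt]
      have : η ^ 2 < r ^ 2 := by linarith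
      exact sq_lt_sq.1 this
    rw [← lintegral_zero (μ := (volume : Measure ℝ))]
    refine lintegral_congr fun s => ?_
    show H (η, s) * ENNReal.ofReal ((√(r ^ 2 - η ^ 2 - s ^ 2))⁻¹) = 0
    rw [sqrt_inv_zero (by nlinarith [sq_nonneg s])]
    simp

/-- rotation invariance of the plane integral -/
theorem rot (r α : ℝ) {F : ℝ → ℝ≥0∞} (hF : Measurable F) :
    ∫⁻ p : ℝ × ℝ, F (p.2 + α * p.1) * ENNReal.ofReal ((√(r ^ 2 - p.1 ^ 2 - p.2 ^ 2))⁻¹) =
    ∫⁻ p : ℝ × ℝ, F (√(1 + α ^ 2) * p.1) *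
      ENNReal.ofReal ((√(r ^ 2 - p.1 ^ 2 - p.2 ^ 2))⁻¹) := by
  set R : ℝ := √(1 + α ^ 2) with hR
  have hRpos : 0 < R := Real.sqrt_pos.2 (by positivity)
  have hRsq : R ^ 2 = 1 + α ^ 2 := Real.sq_sqrt (by positivity)
  have e1 : ∀ G : ℝ × ℝ → ℝ≥0∞, Measurable G → ∫⁻ p : ℝ × ℝ, G p = ∫⁻ z : ℂ, G (z.re, z.im) := by
    intro G hG
    rw [← Complex.volume_preserving_equiv_real_prod.lintegral_comp hG]
    rfl
  have hu : (⟨α / R, -1 / R⟩ : ℂ) ∈ Submonoid.unitSphere ℂ := by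
    have h1 : ‖(⟨α / R, -1 / R⟩ : ℂ)‖ = 1 := by
      rw [Complex.norm_def, Real.sqrt_eq_one, Complex.normSq_mk]
      field_simp
      rw [hRsq]
      ring
    exact mem_sphere_zero_iff_norm.2 h1
  let u : Circle := ⟨⟨α / R, -1 / R⟩, hu⟩
  have e2 : ∀ G : ℂ → ℝ≥0∞, Measurable G → ∫⁻ z : ℂ, G z = ∫⁻ z : ℂ, G (rotation u z) := by
    intro G hG
    exact ((rotation u).measurePreserving.lintegral_comp hG).symm
  rw [e1 _ (by fun_prop), e1 _ (by fun_prop), e2 (fun z : ℂ => F (R * (z.re, z.im).1) *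
      ENNReal.ofReal ((√(r ^ 2 - (z.re, z.im).1 ^ 2 - (z.re, z.im).2 ^ 2))⁻¹)) (by fun_prop)]
  refine lintegral_congr fun z => ?_
  have hre : (rotation u z).re = (z.im + α * z.re) / R := by
    rw [rotation_apply, Complex.mul_re]
    show α / R * z.re - -1 / R * z.im = _
    ring
  have him : (rotation u z).im = (α * z.im - z.re) / R := by
    rw [rotation_apply, Complex.mul_im]
    show α / R * z.im + -1 / R * z.re = _
    ring
  simp only [hre, him]
  congr 2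
  · field_simp
  · congr 2
    field_simp
    rw [hRsq]
    ring

/-- mass of a circle -/
theorem lcos_const (a : ℝ≥0∞) : ENNReal.ofReal (1 / π) * ∫⁻ _ in Ioo (0 : ℝ) π, a = a := by
  rw [setLIntegral_const, Real.volume_Ioo, sub_zero, mul_left_comm,
    ← ENNReal.ofReal_mul (by positivity), one_div, inv_mul_cancel₀ pi_ne_zero, ENNReal.ofReal_one,
    mul_one]

/-- The Archimedes identity, nonnegative version. -/
theorem larch (r α c : ℝ) :
    ∫⁻ η in Ioo (-|r|) |r|, ENNReal.ofReal (jj (√(r ^ 2 - η ^ 2)) (c - α * η)) =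
      ∫⁻ η in Ioo (-|r|) |r|, ENNReal.ofReal (max (√(1 + α ^ 2) * η - c) 0) := by
  have h1 := disc r (H := fun p => ENNReal.ofReal (max (p.2 + α * p.1 - c) 0)) (by fun_prop)
  have h2 := disc r (H := fun p => ENNReal.ofReal (max (√(1 + α ^ 2) * p.1 - c) 0))
    (by fun_prop)
  have h3 := rot r α (F := fun x => ENNReal.ofReal (max (x - c) 0)) (by fun_prop)
  simp only at h1 h2 h3
  rw [h1, h2] at h3
  have h4 : ∀ η : ℝ, ENNReal.ofReal (jj (√(r ^ 2 - η ^ 2)) (c - α * η)) =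
      ENNReal.ofReal (1 / π) * ∫⁻ φ in Ioo 0 π,
        ENNReal.ofReal (max (√(r ^ 2 - η ^ 2) * Real.cos φ + α * η - c) 0) := by
    intro η
    rw [ofReal_jj]
    congr 1
    refine lintegral_congr fun φ => ?_
    congr 2
    ring
  have h5 : ∀ η : ℝ, ENNReal.ofReal (max (√(1 + α ^ 2) * η - c) 0) =
      ENNReal.ofReal (1 / π) * ∫⁻ _ in Ioo (0 : ℝ) π,
        ENNReal.ofReal (max (√(1 + α ^ 2) * η - c) 0) := fun η => (lcos_const _).symm
  simp_rw [h4]
  rw [lintegral_const_mul' _ _ ENNReal.ofReal_ne_top, h3]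
  rw [lintegral_congr h5, lintegral_const_mul' _ _ ENNReal.ofReal_ne_top]

/-- **T1**, the Archimedes identity. -/
theorem arch {r : ℝ} (hr : 0 ≤ r) (α c : ℝ) :
    ∫ η in (-r)..r, jj (√(r ^ 2 - η ^ 2)) (c - α * η) =
      ∫ η in (-r)..r, max (√(1 + α ^ 2) * η - c) 0 := by
  have h := larch r α c
  rw [abs_of_nonneg hr] at h
  have c1 : Continuous fun η : ℝ => jj (√(r ^ 2 - η ^ 2)) (c - α * η) :=
    jj_continuous.comp (f := fun η : ℝ => (√(r ^ 2 - η ^ 2), c - α * η)) (by fun_prop)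
  have c2 : Continuous fun η : ℝ => max (√(1 + α ^ 2) * η - c) 0 := by fun_prop
  have hr' : -r ≤ r := by linarith
  rw [intervalIntegral.integral_of_le hr', intervalIntegral.integral_of_le hr',
    ← restrict_Ioo_eq_restrict_Ioc]
  have i1 : Integrable (fun η : ℝ => jj (√(r ^ 2 - η ^ 2)) (c - α * η))
      (volume.restrict (Ioo (-r) r)) :=
    (c1.integrableOn_Icc (a := -r) (b := r)).mono_set Ioo_subset_Icc_self
  have i2 : Integrable (fun η : ℝ => max (√(1 + α ^ 2) * η - c) 0)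
      (volume.restrict (Ioo (-r) r)) :=
    (c2.integrableOn_Icc (a := -r) (b := r)).mono_set Ioo_subset_Icc_self
  have n1 : 0 ≤ᵐ[volume.restrict (Ioo (-r) r)]
      fun η : ℝ => jj (√(r ^ 2 - η ^ 2)) (c - α * η) :=
    Filter.Eventually.of_forall fun η => jj_nonneg _ _
  have n2 : 0 ≤ᵐ[volume.restrict (Ioo (-r) r)] fun η : ℝ => max (√(1 + α ^ 2) * η - c) 0 :=
    Filter.Eventually.of_forall fun η => le_max_right _ _
  rw [← ofReal_integral_eq_lintegral_ofReal i1 n1, ← ofReal_integral_eq_lintegral_ofReal i2 n2,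
    ENNReal.ofReal_eq_ofReal_iff (integral_nonneg_of_ae n1) (integral_nonneg_of_ae n2)] at h
  exact h

end Pool.Agent.Helper34.FU
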