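import Pool.Agent.Helper73.FU.Stmts
import Pool.Agent.Helper34.FU.T1

/-!
# The row S_arc: Archimedes
-/

namespace Pool.Agent.Helper34.FU.Row

open MeasureTheory Real Set
open scoped ENNReal
open Pool.Agent.Helper73.FU (jj S_arc)
open Pool.Agent.Helper34.FU (disc lcos_const larch)

theorem ofReal_jj' (g c : ℝ) : ENNReal.ofReal (jj g c) =
    ENNReal.ofReal (1 / π) * ∫⁻ φ in Ioo 0 π, ENNReal.ofReal (max (g * Real.cos φ - c) 0) := by
  unfold jj
  rw [ENNReal.ofReal_mul (by positivity), intervalIntegral.integral_of_le pi_pos.le,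
    ofReal_integral_eq_lintegral_ofReal, restrict_Ioo_eq_restrict_Ioc]
  · exact (intervalIntegrable_iff_integrableOn_Ioc_of_le pi_pos.le).1
      ((Pool.Agent.Helper94.FU.cont_max g c).intervalIntegrable 0 π)
  · exact Filter.Eventually.of_forall fun φ => le_max_right _ _

/-- rotation invariance of the plane integral -/
theorem rot' (r p s : ℝ) (hps : p ^ 2 + s ^ 2 = 1) {F : ℝ → ℝ≥0∞} (hF : Measurable F) :
    ∫⁻ q : ℝ × ℝ, F (s * q.2 + p * q.1) * ENNReal.ofReal ((√(r ^ 2 - q.1 ^ 2 - q.2 ^ 2))⁻¹) =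
    ∫⁻ q : ℝ × ℝ, F q.1 * ENNReal.ofReal ((√(r ^ 2 - q.1 ^ 2 - q.2 ^ 2))⁻¹) := by
  have e1 : ∀ G : ℝ × ℝ → ℝ≥0∞, Measurable G → ∫⁻ p : ℝ × ℝ, G p = ∫⁻ z : ℂ, G (z.re, z.im) := by
    intro G hG
    rw [← Complex.volume_preserving_equiv_real_prod.lintegral_comp hG]
    rfl
  have hu : (⟨p, -s⟩ : ℂ) ∈ Submonoid.unitSphere ℂ := by
    have h1 : ‖(⟨p, -s⟩ : ℂ)‖ = 1 := by
      rw [Complex.norm_def, Real.sqrt_eq_one, Complex.normSq_mk]
      linarith
    exact mem_sphere_zero_iff_norm.2 h1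
  let u : Circle := ⟨⟨p, -s⟩, hu⟩
  have e2 : ∀ G : ℂ → ℝ≥0∞, Measurable G → ∫⁻ z : ℂ, G z = ∫⁻ z : ℂ, G (rotation u z) := by
    intro G hG
    exact ((rotation u).measurePreserving.lintegral_comp hG).symm
  rw [e1 _ (by fun_prop), e1 _ (by fun_prop), e2 (fun z : ℂ => F ((z.re, z.im).1) *
      ENNReal.ofReal ((√(r ^ 2 - (z.re, z.im).1 ^ 2 - (z.re, z.im).2 ^ 2))⁻¹)) (by fun_prop)]
  refine lintegral_congr fun z => ?_
  have hre : (rotation u z).re = s * z.im + p * z.re := by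
    rw [rotation_apply, Complex.mul_re]
    show p * z.re - -s * z.im = _
    ring
  have him : (rotation u z).im = p * z.im - s * z.re := by
    rw [rotation_apply, Complex.mul_im]
    show p * z.im + -s * z.re = _
    ring
  simp only [hre, him]
  congr 4
  linear_combination (z.re ^ 2 + z.im ^ 2) * hps

theorem larch' (r p s c : ℝ) (hps : p ^ 2 + s ^ 2 = 1) :
    ∫⁻ η in Ioo (-|r|) |r|, ENNReal.ofReal (jj (s * √(r ^ 2 - η ^ 2)) (c - p * η)) =
      ∫⁻ η in Ioo (-|r|) |r|, ENNReal.ofReal (max (η - c) 0) := by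
  have h1 := disc r (H := fun q => ENNReal.ofReal (max (s * q.2 + p * q.1 - c) 0)) (by fun_prop)
  have h2 := disc r (H := fun q => ENNReal.ofReal (max (q.1 - c) 0)) (by fun_prop)
  have h3 := rot' r p s hps (F := fun x => ENNReal.ofReal (max (x - c) 0)) (by fun_prop)
  simp only at h1 h2 h3
  rw [h1, h2] at h3
  have h4 : ∀ η : ℝ, ENNReal.ofReal (jj (s * √(r ^ 2 - η ^ 2)) (c - p * η)) =
      ENNReal.ofReal (1 / π) * ∫⁻ φ in Ioo 0 π,
        ENNReal.ofReal (max (s * (√(r ^ 2 - η ^ 2) * Real.cos φ) + p * η - c) 0) := by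
    intro η
    rw [ofReal_jj']
    congr 1
    refine lintegral_congr fun φ => ?_
    congr 2
    ring
  have h5 : ∀ η : ℝ, ENNReal.ofReal (max (η - c) 0) =
      ENNReal.ofReal (1 / π) * ∫⁻ _ in Ioo (0 : ℝ) π,
        ENNReal.ofReal (max (η - c) 0) := fun η => (lcos_const _).symm
  simp_rw [h4]
  rw [lintegral_const_mul' _ _ ENNReal.ofReal_ne_top, h3]
  rw [lintegral_congr h5, lintegral_const_mul' _ _ ENNReal.ofReal_ne_top]

/-- **S_arc** -/
theorem s_arc : S_arc := by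
  intro r p s c hr _ hps
  have h := larch' r p s c hps
  rw [abs_of_nonneg hr] at h
  have hj : Continuous fun q : ℝ × ℝ => jj q.1 q.2 := by
    have : (fun q : ℝ × ℝ => jj q.1 q.2) = fun q : ℝ × ℝ => Pool.Agent.Helper94.FU.jj q.1 q.2 := by
      funext q
      unfold jj Pool.Agent.Helper94.FU.jj
      rw [one_div]
    rw [this]
    exact Pool.Agent.Helper94.FU.jj_continuous
  have hn : ∀ g c : ℝ, 0 ≤ jj g c := by
    intro g c
    unfold jj
    refine mul_nonneg (by positivity) ?_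
    exact intervalIntegral.integral_nonneg pi_pos.le fun φ _ => le_max_right _ _
  have c1 : Continuous fun η : ℝ => jj (s * √(r ^ 2 - η ^ 2)) (c - p * η) :=
    hj.comp (f := fun η : ℝ => (s * √(r ^ 2 - η ^ 2), c - p * η)) (by fun_prop)
  have c2 : Continuous fun η : ℝ => max (η - c) 0 := by fun_prop
  have hr' : -r ≤ r := by linarith
  rw [intervalIntegral.integral_of_le hr', intervalIntegral.integral_of_le hr',
    ← restrict_Ioo_eq_restrict_Ioc]
  have i1 : Integrable (fun η : ℝ => jj (s * √(r ^ 2 - η ^ 2)) (c - p * η))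
      (volume.restrict (Ioo (-r) r)) :=
    (c1.integrableOn_Icc (a := -r) (b := r)).mono_set Ioo_subset_Icc_self
  have i2 : Integrable (fun η : ℝ => max (η - c) 0) (volume.restrict (Ioo (-r) r)) :=
    (c2.integrableOn_Icc (a := -r) (b := r)).mono_set Ioo_subset_Icc_self
  have n1 : 0 ≤ᵐ[volume.restrict (Ioo (-r) r)]
      fun η : ℝ => jj (s * √(r ^ 2 - η ^ 2)) (c - p * η) :=
    Filter.Eventually.of_forall fun η => hn _ _
  have n2 : 0 ≤ᵐ[volume.restrict (Ioo (-r) r)] fun η : ℝ => max (η - c) 0 :=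
    Filter.Eventually.of_forall fun η => le_max_right _ _
  rw [← ofReal_integral_eq_lintegral_ofReal i1 n1, ← ofReal_integral_eq_lintegral_ofReal i2 n2,
    ENNReal.ofReal_eq_ofReal_iff (integral_nonneg_of_ae n1) (integral_nonneg_of_ae n2)] at h
  exact h

end Pool.Agent.Helper34.FU.Row
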