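import Pool.Agent.Helper34.FU.T1

/-!
# Strict monotonicity and second difference of `jj`
-/

namespace Pool.Agent.Helper34.FU

open MeasureTheory Real Set
open scoped ENNReal
open Pool.Agent.Helper94.FU (jj jj_nonneg jj_continuous)

theorem jj_cont_aux (g c : ℝ) : Continuous fun φ : ℝ => max (g * Real.cos φ - c) 0 := by
  fun_prop

theorem jj_ii (g c a b : ℝ) :
    IntervalIntegrable (fun φ : ℝ => max (g * Real.cos φ - c) 0) volume a b :=
  (jj_cont_aux g c).intervalIntegrable a b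

/-- symmetrisation of the integral -/
theorem jj_symm (g c : ℝ) : jj g c = (1 / (2 * π)) * ∫ φ in (0 : ℝ)..π,
    (max (g * Real.cos φ - c) 0 + max (-(g * Real.cos φ) - c) 0) := by
  have h1 : ∫ φ in (0 : ℝ)..π, max (-(g * Real.cos φ) - c) 0 =
      ∫ φ in (0 : ℝ)..π, max (g * Real.cos φ - c) 0 := by
    have := intervalIntegral.integral_comp_sub_left (a := 0) (b := π)
      (fun φ => max (g * Real.cos φ - c) 0) π
    rw [sub_self, sub_zero] at this
    rw [← this]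
    refine intervalIntegral.integral_congr fun φ _ => ?_
    show max (-(g * Real.cos φ) - c) 0 = max (g * Real.cos (π - φ) - c) 0
    rw [Real.cos_pi_sub]
    congr 1
    ring
  rw [intervalIntegral.integral_add (jj_ii _ _ _ _)
    (by apply Continuous.intervalIntegrable; fun_prop), h1]
  unfold jj
  field_simp
  ring

theorem sym_mono {x y c : ℝ} (h : |x| ≤ |y|) :
    max (x - c) 0 + max (-x - c) 0 ≤ max (y - c) 0 + max (-y - c) 0 := by
  rcases abs_cases x with ⟨h1, h2⟩ | ⟨h1, h2⟩ <;> rcases abs_cases y with ⟨h3, h4⟩ | ⟨h3, h4⟩ <;>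
    rw [h1, h3] at h <;>
    rcases max_cases (x - c) 0 with ⟨h5, h6⟩ | ⟨h5, h6⟩ <;>
    rcases max_cases (-x - c) 0 with ⟨h7, h8⟩ | ⟨h7, h8⟩ <;>
    rcases max_cases (y - c) 0 with ⟨h9, h10⟩ | ⟨h9, h10⟩ <;>
    rcases max_cases (-y - c) 0 with ⟨h11, h12⟩ | ⟨h11, h12⟩ <;>
    rw [h5, h7, h9, h11] <;> linarith

/-- strict monotonicity in the radius -/
theorem jj_strict {g g' c : ℝ} (hg : 0 ≤ g) (h : g < g') (hc : |c| < g') :
    jj g c < jj g' c := by
  rw [jj_symm, jj_symm]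
  refine mul_lt_mul_of_pos_left ?_ (by positivity)
  refine intervalIntegral.integral_lt_integral_of_continuousOn_of_le_of_exists_lt pi_pos
    (by fun_prop) (by fun_prop) (fun φ _ => ?_) ⟨0, ⟨le_rfl, pi_pos.le⟩, ?_⟩
  · refine sym_mono ?_
    rw [abs_mul, abs_mul]
    gcongr
  · rw [Real.cos_zero, mul_one, mul_one]
    rw [abs_lt] at hc
    rcases max_cases (g - c) 0 with ⟨h5, h6⟩ | ⟨h5, h6⟩ <;>
    rcases max_cases (-g - c) 0 with ⟨h7, h8⟩ | ⟨h7, h8⟩ <;>
    rcases max_cases (g' - c) 0 with ⟨h9, h10⟩ | ⟨h9, h10⟩ <;>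
    rcases max_cases (-g' - c) 0 with ⟨h11, h12⟩ | ⟨h11, h12⟩ <;>
    rw [h5, h7, h9, h11] <;> linarith [hc.1, hc.2]

/-- tent function -/
theorem tent (s c h : ℝ) : max (s - (c + h)) 0 + max (s - (c - h)) 0 - 2 * max (s - c) 0 =
    max (|h| - |s - c|) 0 := by
  rcases abs_cases h with ⟨h1, h2⟩ | ⟨h1, h2⟩ <;> rcases abs_cases (s - c) with ⟨h3, h4⟩ | ⟨h3, h4⟩
    <;> rw [h1, h3] <;>
    rcases max_cases (s - (c + h)) 0 with ⟨h5, h6⟩ | ⟨h5, h6⟩ <;>
    rcases max_cases (s - (c - h)) 0 with ⟨h7, h8⟩ | ⟨h7, h8⟩ <;>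
    rcases max_cases (s - c) 0 with ⟨h9, h10⟩ | ⟨h9, h10⟩ <;>
    rw [h5, h7, h9] <;> symm <;>
    first
    | (rw [max_eq_left (by linarith)]; linarith)
    | (rw [max_eq_right (by linarith)]; linarith)

/-- the second difference of `jj` -/
theorem jj_second {g : ℝ} (hg : 0 < g) (c h : ℝ) :
    jj g (c + h) + jj g (c - h) - 2 * jj g c =
      h ^ 2 / π * ∫ r in (-1 : ℝ)..1, (1 - |r|) * (√(g ^ 2 - (c + r * h) ^ 2))⁻¹ := by
  have hi : ∀ c : ℝ, IntegrableOn (fun φ : ℝ => max (g * Real.cos φ - c) 0) (Ioo 0 π) := fun c =>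
    ((jj_cont_aux g c).integrableOn_Icc (a := 0) (b := π)).mono_set Ioo_subset_Icc_self
  have hj : ∀ c : ℝ, jj g c = (1 / π) * ∫ φ in Ioo 0 π, max (g * Real.cos φ - c) 0 := by
    intro c
    unfold jj
    rw [intervalIntegral.integral_of_le pi_pos.le, integral_Ioc_eq_integral_Ioo, one_div]
  have h1 : jj g (c + h) + jj g (c - h) - 2 * jj g c =
      (1 / π) * ∫ φ in Ioo 0 π, max (|h| - |g * Real.cos φ - c|) 0 := by
    rw [hj, hj, hj]
    have : ∫ φ in Ioo 0 π, max (|h| - |g * Real.cos φ - c|) 0 =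
        ∫ φ in Ioo 0 π, (max (g * Real.cos φ - (c + h)) 0 + max (g * Real.cos φ - (c - h)) 0 -
          2 * max (g * Real.cos φ - c) 0) := by
      refine setIntegral_congr_fun measurableSet_Ioo fun φ _ => ?_
      exact (tent (g * Real.cos φ) c h).symm
    have e2 : ∫ φ in Ioo 0 π, (max (g * Real.cos φ - (c + h)) 0 +
        max (g * Real.cos φ - (c - h)) 0 - 2 * max (g * Real.cos φ - c) 0) =
        (∫ φ in Ioo 0 π, (max (g * Real.cos φ - (c + h)) 0 +
        max (g * Real.cos φ - (c - h)) 0)) - ∫ φ in Ioo 0 π, 2 * max (g * Real.cos φ - c) 0 :=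
      integral_sub ((hi _).add (hi _)) ((hi _).const_mul 2)
    rw [this, e2, integral_add (hi _) (hi _), integral_const_mul]
    ring
  rw [h1, bcv hg (fun s => max (|h| - |s - c|) 0)]
  -- extend to the whole line
  have h2 : ∫ s in Ioo (-g) g, max (|h| - |s - c|) 0 * (√(g ^ 2 - s ^ 2))⁻¹ =
      ∫ s, max (|h| - |s - c|) 0 * (√(g ^ 2 - s ^ 2))⁻¹ := by
    refine setIntegral_eq_integral_of_forall_compl_eq_zero fun s hs => ?_
    have : g ^ 2 - s ^ 2 ≤ 0 := by
      by_contra hcon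
      push Not at hcon
      apply hs
      rw [mem_Ioo, ← abs_lt, ← abs_of_pos hg]
      exact sq_lt_sq.1 (by linarith)
    rw [sqrt_inv_zero this, mul_zero]
  rw [h2]
  rcases eq_or_ne h 0 with rfl | hh
  · have : ∀ s : ℝ, max (|(0 : ℝ)| - |s - c|) 0 * (√(g ^ 2 - s ^ 2))⁻¹ = 0 := by
      intro s
      rw [abs_zero, max_eq_right (by have := abs_nonneg (s - c); linarith), zero_mul]
    simp_rw [this]
    simp
  have h3 : ∫ s, max (|h| - |s - c|) 0 * (√(g ^ 2 - s ^ 2))⁻¹ =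
      |h| * ∫ r, max (|h| - |r * h|) 0 * (√(g ^ 2 - (c + r * h) ^ 2))⁻¹ := by
    have e1 := Measure.integral_comp_mul_right
      (fun x => max (|h| - |x|) 0 * (√(g ^ 2 - (c + x) ^ 2))⁻¹) h
    have e2 := integral_add_left_eq_self (μ := (volume : Measure ℝ))
      (fun s => max (|h| - |s - c|) 0 * (√(g ^ 2 - s ^ 2))⁻¹) c
    simp only [add_sub_cancel_left] at e2
    rw [e1, ← e2, smul_eq_mul, abs_inv, ← mul_assoc, mul_inv_cancel₀ (abs_ne_zero.2 hh), one_mul]
  rw [h3]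
  have h4 : ∫ r, max (|h| - |r * h|) 0 * (√(g ^ 2 - (c + r * h) ^ 2))⁻¹ =
      |h| * ∫ r in (-1 : ℝ)..1, (1 - |r|) * (√(g ^ 2 - (c + r * h) ^ 2))⁻¹ := by
    rw [intervalIntegral.integral_of_le (by norm_num), ← integral_const_mul,
      ← integral_indicator measurableSet_Ioc]
    refine integral_congr_ae (Filter.Eventually.of_forall fun r => ?_)
    show max (|h| - |r * h|) 0 * (√(g ^ 2 - (c + r * h) ^ 2))⁻¹ = _
    have hpos : 0 < |h| := abs_pos.2 hh
    have e0 : |h| - |r * h| = |h| * (1 - |r|) := by rw [abs_mul]; ring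
    by_cases hr : r ∈ Ioc (-1 : ℝ) 1
    · rw [indicator_of_mem hr]
      have : |r| ≤ 1 := abs_le.2 ⟨hr.1.le, hr.2⟩
      rw [e0, max_eq_left (mul_nonneg hpos.le (by linarith)), mul_assoc]
    · rw [indicator_of_notMem hr]
      have : 1 ≤ |r| := by
        by_contra hcon
        push Not at hcon
        exact hr ⟨(abs_lt.1 hcon).1, (abs_lt.1 hcon).2.le⟩
      rw [e0, max_eq_right (mul_nonpos_of_nonneg_of_nonpos hpos.le (by linarith)), zero_mul]
  rw [h4, ← sq_abs h]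
  ring

end Pool.Agent.Helper34.FU
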