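import Pool.Agent.Helper73.FU.Stmts
import Pool.Agent.Helper34.FU.T1

/-!
# The row S_jj: properties of the function `jj`
-/

namespace Pool.Agent.Helper34.FU.Row

open MeasureTheory Real Set
open scoped ENNReal
open Pool.Agent.Helper73.FU (jj pp S_jj)
open Pool.Agent.Helper34.FU (bcv sqrt_inv_zero)

theorem jj_cont_aux (g c : ℝ) : Continuous fun φ : ℝ => max (g * Real.cos φ - c) 0 := by
  fun_prop

theorem jj_ii (g c a b : ℝ) :
    IntervalIntegrable (fun φ : ℝ => max (g * Real.cos φ - c) 0) volume a b :=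
  (jj_cont_aux g c).intervalIntegrable a b

theorem jj_nonneg (g c : ℝ) : 0 ≤ jj g c := by
  unfold jj
  refine mul_nonneg (by positivity) ?_
  exact intervalIntegral.integral_nonneg pi_pos.le fun φ _ => le_max_right _ _

/-- Comparison of circle averages from a pointwise comparison. -/
theorem jj_le_of {g c g' c' : ℝ} (h : ∀ φ ∈ Icc (0 : ℝ) π,
    max (g * Real.cos φ - c) 0 ≤ max (g' * Real.cos φ - c') 0) : jj g c ≤ jj g' c' := by
  unfold jj
  refine mul_le_mul_of_nonneg_left ?_ (by positivity)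
  exact intervalIntegral.integral_mono_on pi_pos.le (jj_ii _ _ _ _) (jj_ii _ _ _ _) h

theorem jj_anti (g : ℝ) : Antitone (jj g) := by
  intro c c' h
  refine jj_le_of fun φ _ => ?_
  exact max_le_max (by linarith) le_rfl

theorem int_const_pi (a : ℝ) : (1 / π) * ∫ _ in (0 : ℝ)..π, a = a := by
  rw [intervalIntegral.integral_const, smul_eq_mul, sub_zero]
  field_simp

/-- joint Lipschitz bound -/
theorem jj_lip (g c g' c' : ℝ) : |jj g c - jj g' c'| ≤ |g - g'| + |c - c'| := by
  have key : ∀ g c g' c' : ℝ, jj g c - jj g' c' ≤ |g - g'| + |c - c'| := by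
    intro g c g' c'
    have h1 : jj g c ≤ (1 / π) * ∫ φ in (0 : ℝ)..π,
        (max (g' * Real.cos φ - c') 0 + (|g - g'| + |c - c'|)) := by
      unfold jj
      refine mul_le_mul_of_nonneg_left ?_ (by positivity)
      refine intervalIntegral.integral_mono_on pi_pos.le (jj_ii _ _ _ _)
        ((jj_ii _ _ _ _).add intervalIntegrable_const) fun φ _ => ?_
      have h2 : (g - g') * Real.cos φ ≤ |g - g'| := by
        calc (g - g') * Real.cos φ ≤ |(g - g') * Real.cos φ| := le_abs_self _
          _ = |g - g'| * |Real.cos φ| := abs_mul _ _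
          _ ≤ |g - g'| * 1 := by gcongr; exact abs_cos_le_one φ
          _ = _ := mul_one _
      have h3 : c' - c ≤ |c - c'| := by rw [abs_sub_comm]; exact le_abs_self _
      refine max_le ?_ ?_
      · have := le_max_left (g' * Real.cos φ - c') 0
        linarith
      · have := le_max_right (g' * Real.cos φ - c') 0
        positivity
    rw [intervalIntegral.integral_add (jj_ii _ _ _ _) intervalIntegrable_const, mul_add,
      int_const_pi] at h1
    unfold jj at h1 ⊢
    linarith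
  rw [abs_sub_le_iff]
  refine ⟨key g c g' c', ?_⟩
  have := key g' c' g c
  rwa [abs_sub_comm g' g, abs_sub_comm c' c] at this

theorem jj_continuous : Continuous fun p : ℝ × ℝ => jj p.1 p.2 := by
  rw [Metric.continuous_iff]
  intro p ε hε
  refine ⟨ε / 2, by positivity, fun q hq => ?_⟩
  rw [Prod.dist_eq] at hq
  have h1 : |q.1 - p.1| < ε / 2 := by
    have h := (le_max_left (dist q.1 p.1) (dist q.2 p.2)).trans_lt hq
    rwa [Real.dist_eq] at h
  have h2 : |q.2 - p.2| < ε / 2 := by
    have h := (le_max_right (dist q.1 p.1) (dist q.2 p.2)).trans_lt hq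
    rwa [Real.dist_eq] at h
  rw [Real.dist_eq]
  have := jj_lip q.1 q.2 p.1 p.2
  linarith

theorem jj_lip_c (g c c' : ℝ) : |jj g c - jj g c'| ≤ |c - c'| := by
  have := jj_lip g c g c'
  simpa using this

theorem jj_convex (g : ℝ) : ConvexOn ℝ univ (jj g) := by
  refine ⟨convex_univ, fun x _ y _ a b ha hb hab => ?_⟩
  simp only [smul_eq_mul]
  have h : jj g (a * x + b * y) ≤ (1 / π) * ∫ φ in (0 : ℝ)..π,
      (a * max (g * Real.cos φ - x) 0 + b * max (g * Real.cos φ - y) 0) := by
    unfold jj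
    refine mul_le_mul_of_nonneg_left ?_ (by positivity)
    refine intervalIntegral.integral_mono_on pi_pos.le (jj_ii _ _ _ _)
      (((jj_ii _ _ _ _).const_mul a).add ((jj_ii _ _ _ _).const_mul b)) fun φ _ => ?_
    refine max_le ?_ ?_
    · have h1 := mul_le_mul_of_nonneg_left (le_max_left (g * Real.cos φ - x) 0) ha
      have h2 := mul_le_mul_of_nonneg_left (le_max_left (g * Real.cos φ - y) 0) hb
      have h3 : g * Real.cos φ = a * (g * Real.cos φ) + b * (g * Real.cos φ) := by
        rw [← add_mul, hab, one_mul]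
      linarith
    · have h1 := mul_nonneg ha (le_max_right (g * Real.cos φ - x) 0)
      have h2 := mul_nonneg hb (le_max_right (g * Real.cos φ - y) 0)
      linarith
  rw [intervalIntegral.integral_add ((jj_ii _ _ _ _).const_mul a) ((jj_ii _ _ _ _).const_mul b),
    intervalIntegral.integral_const_mul, intervalIntegral.integral_const_mul] at h
  unfold jj at h ⊢
  calc _ ≤ _ := h
    _ = _ := by ring

/-- scaling -/
theorem jj_smul {s : ℝ} (hs : 0 ≤ s) (g c : ℝ) : jj (s * g) (s * c) = s * jj g c := by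
  have key : ∫ φ in (0 : ℝ)..π, max (s * g * Real.cos φ - s * c) 0 =
      s * ∫ φ in (0 : ℝ)..π, max (g * Real.cos φ - c) 0 := by
    rw [← intervalIntegral.integral_const_mul]
    refine intervalIntegral.integral_congr fun φ _ => ?_
    show max (s * g * Real.cos φ - s * c) 0 = s * max (g * Real.cos φ - c) 0
    rw [mul_max_of_nonneg _ _ hs, mul_zero]
    congr 1
    ring
  unfold jj
  rw [key]
  ring

theorem cos_bd {g φ : ℝ} (hg : 0 ≤ g) : -g ≤ g * Real.cos φ ∧ g * Real.cos φ ≤ g := by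
  have h1 := neg_one_le_cos φ
  have h2 := cos_le_one φ
  constructor <;> nlinarith

theorem jj_zero {g c : ℝ} (hg : 0 ≤ g) (h : g ≤ c) : jj g c = 0 := by
  unfold jj
  have : ∫ φ in (0 : ℝ)..π, max (g * Real.cos φ - c) 0 = ∫ φ in (0 : ℝ)..π, (0 : ℝ) := by
    refine intervalIntegral.integral_congr fun φ _ => ?_
    show max (g * Real.cos φ - c) 0 = 0
    have := (cos_bd (φ := φ) hg).2
    exact max_eq_right (by linarith)
  rw [this]
  simp

theorem jj_neg {g c : ℝ} (hg : 0 ≤ g) (h : c ≤ -g) : jj g c = -c := by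
  unfold jj
  have : ∫ φ in (0 : ℝ)..π, max (g * Real.cos φ - c) 0 =
      ∫ φ in (0 : ℝ)..π, (g * Real.cos φ + -c) := by
    refine intervalIntegral.integral_congr fun φ _ => ?_
    show max (g * Real.cos φ - c) 0 = g * Real.cos φ + -c
    have := (cos_bd (φ := φ) hg).1
    rw [max_eq_left (by linarith)]
    ring
  rw [this, intervalIntegral.integral_add (by apply Continuous.intervalIntegrable; fun_prop)
    intervalIntegrable_const, mul_add, int_const_pi, intervalIntegral.integral_const_mul,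
    integral_cos]
  simp

/-- the lower bounds by the values of the mean -/
theorem jj_ge_neg {g c : ℝ} (hg : 0 ≤ g) : -c ≤ jj g c := by
  rcases le_total c (-g) with h | h
  · rw [jj_neg hg h]
  · have h1 := (jj_convex g)
    unfold jj
    have h2 : (1 / π) * ∫ φ in (0 : ℝ)..π, (g * Real.cos φ + -c) = -c := by
      rw [intervalIntegral.integral_add (by apply Continuous.intervalIntegrable; fun_prop)
        intervalIntegrable_const, mul_add, int_const_pi, intervalIntegral.integral_const_mul,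
        integral_cos]
      simp
    rw [← h2]
    refine mul_le_mul_of_nonneg_left ?_ (by positivity)
    refine intervalIntegral.integral_mono_on pi_pos.le
      (by apply Continuous.intervalIntegrable; fun_prop) (jj_ii _ _ _ _) fun φ _ => ?_
    have := le_max_left (g * Real.cos φ - c) 0
    linarith

/-- symmetrisation of the integral -/
theorem jj_symm (g c : ℝ) : jj g c = (1 / (2 * π)) * ∫ φ in (0 : ℝ)..π,
    (max (g * Real.cos φ - c) 0 + max (-(g * Real.cos φ) - c) 0) := by
  have h1 : ∫ φ in (0 : ℝ)..π, max (-(g * Real.cos φ) - c) 0 =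
      ∫ φ in (0 : ℝ)..π, max (g * Real.cos φ - c) 0 := by
    have := intervalIntegral.integral_comp_sub_left (a := 0) (b := π)
      (fun φ => max (g * Real.cos φ - c) 0) π
    rw [sub_self, sub_zero] at this
    rw [← this]
    refine intervalIntegral.integral_congr fun φ _ => ?_
    show max (-(g * Real.cos φ) - c) 0 = max (g * Real.cos (π - φ) - c) 0
    rw [Real.cos_pi_sub]
    congr 1
    ring
  rw [intervalIntegral.integral_add (jj_ii _ _ _ _)
    (by apply Continuous.intervalIntegrable; fun_prop), h1]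
  unfold jj
  field_simp
  ring

theorem sym_mono {x y c : ℝ} (h : |x| ≤ |y|) :
    max (x - c) 0 + max (-x - c) 0 ≤ max (y - c) 0 + max (-y - c) 0 := by
  rcases abs_cases x with ⟨h1, h2⟩ | ⟨h1, h2⟩ <;> rcases abs_cases y with ⟨h3, h4⟩ | ⟨h3, h4⟩ <;>
    rw [h1, h3] at h <;>
    rcases max_cases (x - c) 0 with ⟨h5, h6⟩ | ⟨h5, h6⟩ <;>
    rcases max_cases (-x - c) 0 with ⟨h7, h8⟩ | ⟨h7, h8⟩ <;>
    rcases max_cases (y - c) 0 with ⟨h9, h10⟩ | ⟨h9, h10⟩ <;>
    rcases max_cases (-y - c) 0 with ⟨h11, h12⟩ | ⟨h11, h12⟩ <;>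
    rw [h5, h7, h9, h11] <;> linarith

/-- monotone in the radius -/
theorem jj_mono {g g' : ℝ} (hg : 0 ≤ g) (h : g ≤ g') (c : ℝ) : jj g c ≤ jj g' c := by
  rw [jj_symm, jj_symm]
  refine mul_le_mul_of_nonneg_left ?_ (by positivity)
  refine intervalIntegral.integral_mono_on pi_pos.le
    (by apply Continuous.intervalIntegrable; fun_prop)
    (by apply Continuous.intervalIntegrable; fun_prop) fun φ _ => ?_
  refine sym_mono ?_
  rw [abs_mul, abs_mul]
  gcongr

theorem pp_nonneg (g c : ℝ) : 0 ≤ pp g c := div_nonneg (Real.arccos_nonneg _) pi_pos.le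

theorem pp_le_one (g c : ℝ) : pp g c ≤ 1 := by
  unfold pp
  rw [div_le_one pi_pos]
  exact Real.arccos_le_pi _

theorem g_sin_arccos {g : ℝ} (hg : 0 < g) (c : ℝ) :
    g * Real.sin (Real.arccos (c / g)) = √(g ^ 2 - c ^ 2) := by
  rw [Real.sin_arccos]
  nth_rewrite 1 [← Real.sqrt_sq hg.le]
  rw [← Real.sqrt_mul (sq_nonneg g)]
  congr 1
  field_simp

/-- integral of the level part -/
theorem int_part {g : ℝ} (c a : ℝ) :
    ∫ φ in (0 : ℝ)..a, (g * Real.cos φ - c) = g * Real.sin a - c * a := by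
  rw [intervalIntegral.integral_sub (by apply Continuous.intervalIntegrable; fun_prop)
    intervalIntegrable_const, intervalIntegral.integral_const_mul, integral_cos,
    intervalIntegral.integral_const]
  simp
  ring

theorem le_of_lt_arccos {g c φ : ℝ} (hg : 0 < g) (h0 : 0 ≤ φ) (h : φ < Real.arccos (c / g)) :
    c ≤ g * Real.cos φ := by
  have h3 : φ ≤ π := h.le.trans (Real.arccos_le_pi _)
  by_contra hcon
  push Not at hcon
  have h1 : Real.cos φ < c / g := by
    rw [lt_div_iff₀ hg]; linarith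
  have h2 : Real.arccos (c / g) ≤ Real.arccos (Real.cos φ) := Real.arccos_le_arccos h1.le
  rw [Real.arccos_cos h0 h3] at h2
  linarith

theorem le_of_arccos_lt {g c φ : ℝ} (hg : 0 < g) (h0 : φ ≤ π) (h : Real.arccos (c / g) < φ) :
    g * Real.cos φ ≤ c := by
  have h3 : 0 ≤ φ := (Real.arccos_nonneg _).trans h.le
  by_contra hcon
  push Not at hcon
  have h1 : c / g < Real.cos φ := by
    rw [div_lt_iff₀ hg]; linarith
  have h2 : Real.arccos (Real.cos φ) ≤ Real.arccos (c / g) := Real.arccos_le_arccos h1.le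
  rw [Real.arccos_cos h3 h0] at h2
  linarith

/-- closed form of `jj` -/
theorem jj_eq {g : ℝ} (hg : 0 < g) (c : ℝ) :
    jj g c = √(g ^ 2 - c ^ 2) / π - c * pp g c := by
  have ha := Real.arccos_nonneg (c / g)
  have hb := Real.arccos_le_pi (c / g)
  unfold jj pp
  rw [← intervalIntegral.integral_add_adjacent_intervals (jj_ii g c 0 (Real.arccos (c / g)))
    (jj_ii g c (Real.arccos (c / g)) π)]
  have h1 : ∫ φ in (0 : ℝ)..(Real.arccos (c / g)), max (g * Real.cos φ - c) 0 =
      ∫ φ in (0 : ℝ)..(Real.arccos (c / g)), (g * Real.cos φ - c) := by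
    rw [intervalIntegral.integral_of_le ha, intervalIntegral.integral_of_le ha,
      integral_Ioc_eq_integral_Ioo, integral_Ioc_eq_integral_Ioo]
    refine setIntegral_congr_fun measurableSet_Ioo fun φ hφ => ?_
    have := le_of_lt_arccos hg hφ.1.le hφ.2
    exact max_eq_left (by linarith)
  have h2 : ∫ φ in (Real.arccos (c / g))..π, max (g * Real.cos φ - c) 0 = 0 := by
    rw [intervalIntegral.integral_of_le hb, integral_Ioc_eq_integral_Ioo]
    have : ∫ φ in Ioo (Real.arccos (c / g)) π, max (g * Real.cos φ - c) 0 =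
        ∫ φ in Ioo (Real.arccos (c / g)) π, (0 : ℝ) := by
      refine setIntegral_congr_fun measurableSet_Ioo fun φ hφ => ?_
      have := le_of_arccos_lt hg hφ.2.le hφ.1
      exact max_eq_right (by linarith)
    rw [this]
    simp
  rw [h1, h2, int_part, g_sin_arccos hg, add_zero]
  ring

/-- `-(pp g c)` is a subgradient of `jj g` at `c` -/
theorem jj_sub {g : ℝ} (hg : 0 < g) (c c' : ℝ) :
    jj g c - (c' - c) * pp g c ≤ jj g c' := by
  have ha := Real.arccos_nonneg (c / g)
  have hb := Real.arccos_le_pi (c / g)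
  have h1 : ∫ φ in (0 : ℝ)..(Real.arccos (c / g)), (g * Real.cos φ - c') ≤
      ∫ φ in (0 : ℝ)..(Real.arccos (c / g)), max (g * Real.cos φ - c') 0 :=
    intervalIntegral.integral_mono_on ha (by apply Continuous.intervalIntegrable; fun_prop)
      (jj_ii _ _ _ _) fun φ _ => le_max_left _ _
  have h2 : 0 ≤ ∫ φ in (Real.arccos (c / g))..π, max (g * Real.cos φ - c') 0 :=
    intervalIntegral.integral_nonneg hb fun φ _ => le_max_right _ _
  rw [int_part, g_sin_arccos hg] at h1
  have h3 : √(g ^ 2 - c ^ 2) - c' * Real.arccos (c / g) ≤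
      ∫ φ in (0 : ℝ)..π, max (g * Real.cos φ - c') 0 := by
    rw [← intervalIntegral.integral_add_adjacent_intervals (jj_ii g c' 0 (Real.arccos (c / g)))
      (jj_ii g c' (Real.arccos (c / g)) π)]
    linarith
  rw [jj_eq hg]
  have h4 : (1 / π) * (√(g ^ 2 - c ^ 2) - c' * Real.arccos (c / g)) ≤ jj g c' := by
    unfold jj
    exact mul_le_mul_of_nonneg_left h3 (by positivity)
  refine le_trans (le_of_eq ?_) h4
  unfold pp
  ring

theorem pp_continuous {g : ℝ} : Continuous (pp g) := by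
  unfold pp
  exact (Real.continuous_arccos.comp (continuous_id.div_const g)).div_const π

theorem pp_anti {g : ℝ} (hg : 0 < g) : Antitone (pp g) := by
  intro c c' h
  unfold pp
  refine div_le_div_of_nonneg_right (Real.arccos_le_arccos ?_) pi_pos.le
  exact div_le_div_of_nonneg_right h hg.le

/-- the derivative of `jj` -/
theorem jj_hasDerivAt {g : ℝ} (hg : 0 < g) (c : ℝ) : HasDerivAt (jj g) (-(pp g c)) c := by
  rw [hasDerivAt_iff_isLittleO_nhds_zero, Asymptotics.isLittleO_iff]
  intro ε hε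
  have hc : Filter.Tendsto (fun h : ℝ => pp g (c + h)) (nhds 0) (nhds (pp g c)) := by
    have := (pp_continuous (g := g)).tendsto (c + 0)
    rw [add_zero] at this
    refine Filter.Tendsto.comp (f := fun h : ℝ => c + h) (g := pp g) this ?_
    have : Filter.Tendsto (fun h : ℝ => c + h) (nhds 0) (nhds (c + 0)) :=
      (continuous_const.add continuous_id).tendsto 0
    rwa [add_zero] at this
  have h1 := (Metric.tendsto_nhds.1 hc) ε hε
  filter_upwards [h1] with h hh
  rw [Real.dist_eq] at hh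
  have h2 := jj_sub hg c (c + h)
  have h3 := jj_sub hg (c + h) c
  rw [Real.norm_eq_abs, Real.norm_eq_abs, smul_eq_mul]
  have h4 : |h * (pp g (c + h) - pp g c)| ≤ ε * |h| := by
    rw [abs_mul, mul_comm]
    gcongr
  rw [abs_le] at h4 ⊢
  constructor <;> nlinarith [h4.1, h4.2]

/-- strict monotonicity in the radius -/
theorem jj_strict {g g' c : ℝ} (hg : 0 ≤ g) (h : g < g') (hc : |c| < g') :
    jj g c < jj g' c := by
  rw [jj_symm, jj_symm]
  refine mul_lt_mul_of_pos_left ?_ (by positivity)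
  refine intervalIntegral.integral_lt_integral_of_continuousOn_of_le_of_exists_lt pi_pos
    (by fun_prop) (by fun_prop) (fun φ _ => ?_) ⟨0, ⟨le_rfl, pi_pos.le⟩, ?_⟩
  · refine sym_mono ?_
    rw [abs_mul, abs_mul]
    gcongr
  · rw [Real.cos_zero, mul_one, mul_one]
    rw [abs_lt] at hc
    rcases max_cases (g - c) 0 with ⟨h5, h6⟩ | ⟨h5, h6⟩ <;>
    rcases max_cases (-g - c) 0 with ⟨h7, h8⟩ | ⟨h7, h8⟩ <;>
    rcases max_cases (g' - c) 0 with ⟨h9, h10⟩ | ⟨h9, h10⟩ <;>
    rcases max_cases (-g' - c) 0 with ⟨h11, h12⟩ | ⟨h11, h12⟩ <;>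
    rw [h5, h7, h9, h11] <;> linarith [hc.1, hc.2]

/-- tent function -/
theorem tent (s c h : ℝ) : max (s - (c + h)) 0 + max (s - (c - h)) 0 - 2 * max (s - c) 0 =
    max (|h| - |s - c|) 0 := by
  rcases abs_cases h with ⟨h1, h2⟩ | ⟨h1, h2⟩ <;> rcases abs_cases (s - c) with ⟨h3, h4⟩ | ⟨h3, h4⟩
    <;> rw [h1, h3] <;>
    rcases max_cases (s - (c + h)) 0 with ⟨h5, h6⟩ | ⟨h5, h6⟩ <;>
    rcases max_cases (s - (c - h)) 0 with ⟨h7, h8⟩ | ⟨h7, h8⟩ <;>
    rcases max_cases (s - c) 0 with ⟨h9, h10⟩ | ⟨h9, h10⟩ <;>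
    rw [h5, h7, h9] <;> symm <;>
    first
    | (rw [max_eq_left (by linarith)]; linarith)
    | (rw [max_eq_right (by linarith)]; linarith)

/-- the second difference of `jj` -/
theorem jj_second {g : ℝ} (hg : 0 < g) (c h : ℝ) :
    jj g (c + h) + jj g (c - h) - 2 * jj g c =
      h ^ 2 / π * ∫ r in (-1 : ℝ)..1, (1 - |r|) * (√(g ^ 2 - (c + r * h) ^ 2))⁻¹ := by
  have hi : ∀ c : ℝ, IntegrableOn (fun φ : ℝ => max (g * Real.cos φ - c) 0) (Ioo 0 π) := fun c =>
    ((jj_cont_aux g c).integrableOn_Icc (a := 0) (b := π)).mono_set Ioo_subset_Icc_self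
  have hj : ∀ c : ℝ, jj g c = (1 / π) * ∫ φ in Ioo 0 π, max (g * Real.cos φ - c) 0 := by
    intro c
    unfold jj
    rw [intervalIntegral.integral_of_le pi_pos.le, integral_Ioc_eq_integral_Ioo]
  have h1 : jj g (c + h) + jj g (c - h) - 2 * jj g c =
      (1 / π) * ∫ φ in Ioo 0 π, max (|h| - |g * Real.cos φ - c|) 0 := by
    rw [hj, hj, hj]
    have : ∫ φ in Ioo 0 π, max (|h| - |g * Real.cos φ - c|) 0 =
        ∫ φ in Ioo 0 π, (max (g * Real.cos φ - (c + h)) 0 + max (g * Real.cos φ - (c - h)) 0 -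
          2 * max (g * Real.cos φ - c) 0) := by
      refine setIntegral_congr_fun measurableSet_Ioo fun φ _ => ?_
      exact (tent (g * Real.cos φ) c h).symm
    have e2 : ∫ φ in Ioo 0 π, (max (g * Real.cos φ - (c + h)) 0 +
        max (g * Real.cos φ - (c - h)) 0 - 2 * max (g * Real.cos φ - c) 0) =
        (∫ φ in Ioo 0 π, (max (g * Real.cos φ - (c + h)) 0 +
        max (g * Real.cos φ - (c - h)) 0)) - ∫ φ in Ioo 0 π, 2 * max (g * Real.cos φ - c) 0 :=
      integral_sub ((hi _).add (hi _)) ((hi _).const_mul 2)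
    rw [this, e2, integral_add (hi _) (hi _), integral_const_mul]
    ring
  rw [h1, bcv hg (fun s => max (|h| - |s - c|) 0)]
  -- extend to the whole line
  have h2 : ∫ s in Ioo (-g) g, max (|h| - |s - c|) 0 * (√(g ^ 2 - s ^ 2))⁻¹ =
      ∫ s, max (|h| - |s - c|) 0 * (√(g ^ 2 - s ^ 2))⁻¹ := by
    refine setIntegral_eq_integral_of_forall_compl_eq_zero fun s hs => ?_
    have : g ^ 2 - s ^ 2 ≤ 0 := by
      by_contra hcon
      push Not at hcon
      apply hs
      rw [mem_Ioo, ← abs_lt, ← abs_of_pos hg]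
      exact sq_lt_sq.1 (by linarith)
    rw [sqrt_inv_zero this, mul_zero]
  rw [h2]
  rcases eq_or_ne h 0 with rfl | hh
  · have : ∀ s : ℝ, max (|(0 : ℝ)| - |s - c|) 0 * (√(g ^ 2 - s ^ 2))⁻¹ = 0 := by
      intro s
      rw [abs_zero, max_eq_right (by have := abs_nonneg (s - c); linarith), zero_mul]
    simp_rw [this]
    simp
  have h3 : ∫ s, max (|h| - |s - c|) 0 * (√(g ^ 2 - s ^ 2))⁻¹ =
      |h| * ∫ r, max (|h| - |r * h|) 0 * (√(g ^ 2 - (c + r * h) ^ 2))⁻¹ := by
    have e1 := Measure.integral_comp_mul_right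
      (fun x => max (|h| - |x|) 0 * (√(g ^ 2 - (c + x) ^ 2))⁻¹) h
    have e2 := integral_add_left_eq_self (μ := (volume : Measure ℝ))
      (fun s => max (|h| - |s - c|) 0 * (√(g ^ 2 - s ^ 2))⁻¹) c
    simp only [add_sub_cancel_left] at e2
    rw [e1, ← e2, smul_eq_mul, abs_inv, ← mul_assoc, mul_inv_cancel₀ (abs_ne_zero.2 hh), one_mul]
  rw [h3]
  have h4 : ∫ r, max (|h| - |r * h|) 0 * (√(g ^ 2 - (c + r * h) ^ 2))⁻¹ =
      |h| * ∫ r in (-1 : ℝ)..1, (1 - |r|) * (√(g ^ 2 - (c + r * h) ^ 2))⁻¹ := by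
    rw [intervalIntegral.integral_of_le (by norm_num), ← integral_const_mul,
      ← integral_indicator measurableSet_Ioc]
    refine integral_congr_ae (Filter.Eventually.of_forall fun r => ?_)
    show max (|h| - |r * h|) 0 * (√(g ^ 2 - (c + r * h) ^ 2))⁻¹ = _
    have hpos : 0 < |h| := abs_pos.2 hh
    have e0 : |h| - |r * h| = |h| * (1 - |r|) := by rw [abs_mul]; ring
    by_cases hr : r ∈ Ioc (-1 : ℝ) 1
    · rw [indicator_of_mem hr]
      have : |r| ≤ 1 := abs_le.2 ⟨hr.1.le, hr.2⟩
      rw [e0, max_eq_left (mul_nonneg hpos.le (by linarith)), mul_assoc]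
    · rw [indicator_of_notMem hr]
      have : 1 ≤ |r| := by
        by_contra hcon
        push Not at hcon
        exact hr ⟨(abs_lt.1 hcon).1, (abs_lt.1 hcon).2.le⟩
      rw [e0, max_eq_right (mul_nonpos_of_nonneg_of_nonpos hpos.le (by linarith)), zero_mul]
  rw [h4, ← sq_abs h]
  ring


/-- Young inequality -/
theorem jj_young {g c ρ : ℝ} (h0 : 0 ≤ ρ) (h1 : ρ ≤ 1) :
    g * Real.sin (π * ρ) / π - c * ρ ≤ jj g c := by
  have ha : 0 ≤ π * ρ := mul_nonneg pi_pos.le h0
  have hb : π * ρ ≤ π := by nlinarith [pi_pos]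
  have e1 : ∫ φ in (0 : ℝ)..(π * ρ), (g * Real.cos φ - c) ≤
      ∫ φ in (0 : ℝ)..(π * ρ), max (g * Real.cos φ - c) 0 :=
    intervalIntegral.integral_mono_on ha (by apply Continuous.intervalIntegrable; fun_prop)
      (jj_ii _ _ _ _) fun φ _ => le_max_left _ _
  have e2 : 0 ≤ ∫ φ in (π * ρ)..π, max (g * Real.cos φ - c) 0 :=
    intervalIntegral.integral_nonneg hb fun φ _ => le_max_right _ _
  rw [int_part] at e1
  have e3 : g * Real.sin (π * ρ) - c * (π * ρ) ≤
      ∫ φ in (0 : ℝ)..π, max (g * Real.cos φ - c) 0 := by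
    rw [← intervalIntegral.integral_add_adjacent_intervals (jj_ii g c 0 (π * ρ))
      (jj_ii g c (π * ρ) π)]
    linarith
  have e4 : (1 / π) * (g * Real.sin (π * ρ) - c * (π * ρ)) ≤ jj g c := by
    unfold jj
    exact mul_le_mul_of_nonneg_left e3 (by positivity)
  refine le_trans (le_of_eq ?_) e4
  have := pi_ne_zero
  field_simp

theorem g_sin_pp {g : ℝ} (hg : 0 < g) (c : ℝ) :
    g * Real.sin (π * pp g c) = √(g ^ 2 - c ^ 2) := by
  unfold pp
  rw [mul_div_cancel₀ _ pi_ne_zero]
  exact g_sin_arccos hg c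

theorem jj_le_max {g : ℝ} (hg : 0 ≤ g) (c : ℝ) : jj g c ≤ max (g - c) 0 := by
  have h : jj g c ≤ (1 / π) * ∫ _ in (0 : ℝ)..π, max (g - c) 0 := by
    unfold jj
    refine mul_le_mul_of_nonneg_left ?_ (by positivity)
    refine intervalIntegral.integral_mono_on pi_pos.le (jj_ii _ _ _ _) intervalIntegrable_const
      fun φ _ => ?_
    exact max_le_max (by linarith [(cos_bd (φ := φ) hg).2]) le_rfl
  rwa [int_const_pi] at h

theorem second_ii {g : ℝ} (hg : 0 < g) (c h : ℝ) :
    IntervalIntegrable (fun r => (1 - |r|) * (√(g ^ 2 - (c + r * h) ^ 2))⁻¹) volume (-1) 1 := by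
  have key : IntervalIntegrable (fun r => (√(g ^ 2 - (c + r * h) ^ 2))⁻¹) volume (-1) 1 := by
    rcases eq_or_ne h 0 with rfl | hh
    · simp only [mul_zero]
      exact intervalIntegrable_const
    · have f0 : IntervalIntegrable (fun x => (√(g ^ 2 - x ^ 2))⁻¹) volume (-h + c) (h + c) := by
        have := (Pool.Agent.Helper94.FU.ww_intervalIntegrable hg (-h + c) (h + c)).const_mul π
        refine this.congr ?_
        refine fun x _ => ?_
        show π * Pool.Agent.Helper94.FU.ww g x = _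
        unfold Pool.Agent.Helper94.FU.ww
        rw [← mul_assoc, mul_inv_cancel₀ pi_ne_zero, one_mul]
      have f1 := IntervalIntegrable.comp_mul_right (c := h) (f0.comp_add_right c)
      rw [add_sub_cancel_right, add_sub_cancel_right, neg_div, div_self hh] at f1
      refine f1.congr ?_
      refine fun x _ => ?_
      show (√(g ^ 2 - (x * h + c) ^ 2))⁻¹ = (√(g ^ 2 - (c + x * h) ^ 2))⁻¹
      rw [add_comm]
  exact key.continuousOn_mul (by fun_prop)

/-- **S_jj** -/
theorem s_jj : S_jj := by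
  refine ⟨?_, ?_, ?_, ?_, ?_, ?_, ?_, ?_, ?_⟩
  · intro g c hg
    rw [jj_eq hg]
    unfold pp
    ring
  · intro g c ρ _ h0 h1
    exact jj_young h0 h1
  · intro g c hg
    exact ⟨g_sin_pp hg c, by rw [g_sin_pp hg, jj_eq hg]⟩
  · intro g _
    exact ⟨jj_convex g, jj_anti g⟩
  · intro g c c' _
    exact jj_lip_c g c c'
  · intro g c hg
    exact ⟨jj_nonneg g c, jj_ge_neg hg, jj_le_max hg c⟩
  · intro g c hg
    exact jj_hasDerivAt hg c
  · intro g c h hg
    exact ⟨second_ii hg c h, jj_second hg c h⟩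
  · exact jj_continuous

end Pool.Agent.Helper34.FU.Row
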